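import Pool.Agent.N224.PJ.Red

/-! # Averages along `[n sin n]`: mixing of all orders, and reduction to a factor

For every transformation which is mixing of all orders the multiple averages along the powers
`i [n sin n]` converge in `L²` to the product of the integrals. If `T` is mixing of all orders
relative to a sub-σ-algebra `mP` (such as the Pinsker algebra), then `mP` is characteristic for these
averages, and they converge in `L²` for all bounded functions if they do for the `mP`-measurable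
ones. -/

set_option autoImplicit false

open MeasureTheory Filter Topology

namespace Pool.Agent.Results.MP_3ea55a_an.PinskerReduction

/-- the averages of the problem: `(1/N) ∑_{n=1}^N ∏_{i<ℓ} f_i (T ^ ((i+1) ⌊n sin n⌋) x)` -/
noncomputable def average {X : Type} [MeasurableSpace X] (T : X ≃ᵐ X) {ℓ : ℕ} (f : Fin ℓ → X → ℝ) (N : ℕ)
    (x : X) : ℝ :=
  (1 / (N : ℝ)) * ∑ n ∈ Finset.Icc 1 N, ∏ i : Fin ℓ,
    f i ((T.toEquiv ^ ((((i : ℕ) : ℤ) + 1) * ⌊(n : ℝ) * Real.sin (n : ℝ)⌋)) x)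

/-- the averages are Cauchy in `L²(μ)` (the conclusion of the frozen statement) -/
def CauchyInL2 {X : Type} [MeasurableSpace X] (μ : Measure X) (T : X ≃ᵐ X) {ℓ : ℕ} (f : Fin ℓ → X → ℝ) :
    Prop :=
  ∀ ε : ℝ, 0 < ε → ∃ M : ℕ, ∀ N ≥ M, ∀ N' ≥ M, ∫ x, (average T f N x - average T f N' x) ^ 2 ∂μ ≤ ε

/-- `T` is mixing of all orders: `∫ ∏ f_i(T ^ (c i) x)` tends to the product of the integrals of the
bounded measurable functions `f_i` as the gaps `|c i - c j|` tend to infinity. -/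
def MixingOfAllOrders {X : Type} [MeasurableSpace X] (μ : Measure X) (T : X ≃ᵐ X) : Prop :=
  ∀ (k : ℕ) (f : Fin k → X → ℝ), (∀ i, Measurable (f i)) → (∀ i, ∃ C : ℝ, ∀ x, |f i x| ≤ C) →
    ∀ ε : ℝ, 0 < ε → ∃ D : ℤ, ∀ c : Fin k → ℤ, (∀ i j, i ≠ j → D ≤ |c i - c j|) →
      |∫ x, ∏ i, f i ((T.toEquiv ^ c i) x) ∂μ - ∏ i, ∫ x, f i x ∂μ| ≤ ε

/-- `f` has conditional mean zero with respect to the σ-algebra `mP` -/
def CondMeanZero {X : Type} (mP : MeasurableSpace X) [mX : MeasurableSpace X] (μ : Measure X) (f : X → ℝ) :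
    Prop :=
  ∀ B, MeasurableSet[mP] B → ∫ x in B, f x ∂μ = 0

/-- `T` is mixing of all orders relative to `mP`: `∫ ∏ f_i(T ^ (c i) x)` tends to zero as the gaps
tend to infinity, if the `f_i` are bounded and measurable and one of them has conditional mean zero
with respect to `mP`. -/
def MixingRelativeTo {X : Type} (mP : MeasurableSpace X) [mX : MeasurableSpace X] (μ : Measure X)
    (T : X ≃ᵐ X) : Prop :=
  ∀ (k : ℕ) (f : Fin k → X → ℝ), (∀ i, Measurable[mX] (f i)) → (∀ i, ∃ C : ℝ, ∀ x, |f i x| ≤ C) →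
    (∃ i, CondMeanZero mP μ (f i)) → ∀ ε : ℝ, 0 < ε → ∃ D : ℤ,
      ∀ c : Fin k → ℤ, (∀ i j, i ≠ j → D ≤ |c i - c j|) → |∫ x, ∏ i, f i ((T.toEquiv ^ c i) x) ∂μ| ≤ ε

theorem sum_shift (F : ℕ → ℝ) (N : ℕ) : ∑ n ∈ Finset.Icc 1 N, F n = ∑ n ∈ Finset.range N, F (n + 1) := by
  induction N with
  | zero => simp
  | succ N ih => rw [Finset.sum_Icc_succ_top (by omega), ih, Finset.sum_range_succ]

theorem average_eq {X : Type} [MeasurableSpace X] (T : X ≃ᵐ X) {ℓ : ℕ} (f : Fin ℓ → X → ℝ) (N : ℕ) (x : X) :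
    average T f N x = N224.PJ.AA T.toEquiv (N224.PJ.msn ℓ) f N x := by
  unfold average N224.PJ.AA
  rw [sum_shift]
  rfl

theorem const_of_bot {X : Type} (x0 : X) {f : X → ℝ} (hf : Measurable[⊥] f) (x : X) : f x = f x0 := by
  have h1 : MeasurableSet[⊥] (f ⁻¹' {f x0}) := hf (measurableSet_singleton _)
  rw [MeasurableSpace.measurableSet_bot_iff] at h1
  rcases h1 with h | h
  · have : x0 ∈ f ⁻¹' {f x0} := rfl
    rw [h] at this
    exact absurd this (Set.notMem_empty _)
  · have : x ∈ f ⁻¹' {f x0} := by rw [h]; trivial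
    exact this

theorem mixing_case {X : Type} [mX : MeasurableSpace X] {μ : Measure X} [IsProbabilityMeasure μ] {T : X ≃ᵐ X}
    (hT : MeasurePreserving T μ μ) (h : MixingOfAllOrders μ T) {ℓ : ℕ} (f : Fin ℓ → X → ℝ)
    (hf : ∀ i, Measurable (f i)) (hb : ∀ i, ∃ C : ℝ, ∀ x, |f i x| ≤ C) :
    Tendsto (fun N : ℕ => ∫ x, (average T f N x - ∏ i, ∫ y, f i y ∂μ) ^ 2 ∂μ) atTop (𝓝 0) := by
  obtain ⟨x0⟩ : Nonempty X := μ.nonempty_of_neZero
  have hRM : N224.PJ.RM (⊥ : MeasurableSpace X) μ T.toEquiv := by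
    intro k f hf hb ⟨i, hi⟩ ε hε
    obtain ⟨D, hD⟩ := h k f hf hb ε hε
    refine ⟨D, fun c hc => ?_⟩
    have h1 := hD c hc
    have h2 : ∏ i, ∫ x, f i x ∂μ = 0 := by
      refine Finset.prod_eq_zero (Finset.mem_univ i) ?_
      have := hi Set.univ MeasurableSet.univ
      rwa [Measure.restrict_univ] at this
    rw [h2, sub_zero] at h1
    exact h1
  have key := N224.PJ.joint_rel2 (mP := ⊥) (T := T.toEquiv) hT T.symm.measurable (N224.PJ.bad_msn ℓ) bot_le hRM
    (by
      intro g hg _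
      refine tendsto_const_nhds.congr' ?_
      filter_upwards [eventually_ge_atTop 1] with N hN
      have hN0 : (N : ℝ) ≠ 0 := by
        have : (1 : ℝ) ≤ N := by exact_mod_cast hN
        linarith
      have h1 : ∀ j x, g j x = g j x0 := fun j x => const_of_bot x0 (hg j) x
      have h2 : ∀ x, ((1 / (N : ℝ)) * ∑ n ∈ Finset.range N,
          ∏ j, g j ((T.toEquiv ^ (N224.PJ.msn ℓ j n) : Equiv.Perm X) x)) - ∏ j, ∫ y, g j y ∂μ = 0 := by
        intro x
        have h3 : ∀ j, ∫ y, g j y ∂μ = g j x0 := by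
          intro j
          rw [integral_congr_ae (Eventually.of_forall (h1 j)), integral_const]
          simp
        simp only [h3]
        have h4 : ∀ n, ∏ j, g j ((T.toEquiv ^ (N224.PJ.msn ℓ j n) : Equiv.Perm X) x) = ∏ j, g j x0 :=
          fun n => Finset.prod_congr rfl fun j _ => h1 j _
        simp only [h4, Finset.sum_const, Finset.card_range, nsmul_eq_mul]
        field_simp
        ring
      simp only [h2]
      simp) f hf hb
  refine key.congr fun N => ?_
  congr 1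
  funext x
  rw [average_eq]
  rfl

section

variable {X : Type} {mP : MeasurableSpace X} [mX : MeasurableSpace X] {μ : Measure X} [IsProbabilityMeasure μ]
  {T : X ≃ᵐ X}

theorem characteristic (hT : MeasurePreserving T μ μ) (h : MixingRelativeTo mP μ T) {ℓ : ℕ}
    (f : Fin ℓ → X → ℝ) (hf : ∀ i, Measurable (f i)) (hb : ∀ i, ∃ C : ℝ, ∀ x, |f i x| ≤ C)
    (h0 : ∃ i, CondMeanZero mP μ (f i)) :
    Tendsto (fun N : ℕ => ∫ x, (average T f N x) ^ 2 ∂μ) atTop (𝓝 0) := by
  obtain ⟨i, hi⟩ := h0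
  have key := N224.PJ.char_zero (mP := mP) (T := T.toEquiv) hT T.symm.measurable (N224.PJ.bad_msn ℓ) h f hf hb
    i hi
  refine key.congr fun N => ?_
  congr 1
  funext x
  rw [average_eq]
  rfl

theorem reduction (hT : MeasurePreserving T μ μ) (hmP : mP ≤ mX) (h : MixingRelativeTo mP μ T) {ℓ : ℕ}
    (hJ : ∀ f : Fin ℓ → X → ℝ, (∀ i, Measurable[mP] (f i)) → (∀ i, ∃ C : ℝ, ∀ x, |f i x| ≤ C) →
      CauchyInL2 μ T f)
    (f : Fin ℓ → X → ℝ) (hf : ∀ i, Measurable (f i)) (hb : ∀ i, ∃ C : ℝ, ∀ x, |f i x| ≤ C) :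
    CauchyInL2 μ T f := by
  intro ε hε
  have key := N224.PJ.cauchy_red (mP := mP) (T := T.toEquiv) hT T.symm.measurable (N224.PJ.bad_msn ℓ) hmP h
    (by
      intro g hg hgb ε hε
      obtain ⟨M, hM⟩ := hJ g hg hgb ε hε
      refine ⟨M, fun N hN N' hN' => ?_⟩
      have := hM N hN N' hN'
      simpa only [average_eq] using this) f hf hb ε hε
  obtain ⟨M, hM⟩ := key
  refine ⟨M, fun N hN N' hN' => ?_⟩
  have := hM N hN N' hN'
  simpa only [average_eq] using this

end

/-- Let `T` be an invertible measure-preserving transformation of a probability space.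
(1) If `T` is mixing of all orders, then the averages along `i [n sin n]`, `i = 1, …, ℓ`, converge
in `L²` to the product of the integrals, for every `ℓ` and all bounded measurable functions.
(2) If `T` is mixing of all orders relative to a sub-σ-algebra `mP`, then `mP` is characteristic: the
averages tend to zero in `L²` whenever one of the functions has conditional mean zero on `mP`.
(3) In this case, if the averages of all `ℓ`-tuples of bounded `mP`-measurable functions converge in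
`L²`, then so do the averages of all `ℓ`-tuples of bounded measurable functions. -/
theorem result (X : Type) [mX : MeasurableSpace X] (μ : Measure X) [IsProbabilityMeasure μ] (T : X ≃ᵐ X)
    (hT : MeasurePreserving T μ μ) (ℓ : ℕ) :
    (MixingOfAllOrders μ T → ∀ f : Fin ℓ → X → ℝ, (∀ i, Measurable (f i)) →
      (∀ i, ∃ C : ℝ, ∀ x, |f i x| ≤ C) →
      Tendsto (fun N : ℕ => ∫ x, (average T f N x - ∏ i, ∫ y, f i y ∂μ) ^ 2 ∂μ) atTop (𝓝 0)) ∧
    (∀ mP : MeasurableSpace X, mP ≤ mX → @MixingRelativeTo X mP mX μ T →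
      (∀ f : Fin ℓ → X → ℝ, (∀ i, Measurable[mX] (f i)) → (∀ i, ∃ C : ℝ, ∀ x, |f i x| ≤ C) →
        (∃ i, @CondMeanZero X mP mX μ (f i)) →
        Tendsto (fun N : ℕ => ∫ x, (@average X mX T ℓ f N x) ^ 2 ∂μ) atTop (𝓝 0)) ∧
      ((∀ f : Fin ℓ → X → ℝ, (∀ i, Measurable[mP] (f i)) → (∀ i, ∃ C : ℝ, ∀ x, |f i x| ≤ C) →
          @CauchyInL2 X mX μ T ℓ f) →
        ∀ f : Fin ℓ → X → ℝ, (∀ i, Measurable[mX] (f i)) → (∀ i, ∃ C : ℝ, ∀ x, |f i x| ≤ C) →
          @CauchyInL2 X mX μ T ℓ f)) := by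
  exact ⟨fun h f hf hb => mixing_case hT h f hf hb, fun mP hmP h =>
    ⟨fun f hf hb h0 => @characteristic X mP mX μ _ T hT h ℓ f hf hb h0,
      fun hJ f hf hb => @reduction X mP mX μ _ T hT hmP h ℓ hJ f hf hb⟩⟩

end Pool.Agent.Results.MP_3ea55a_an.PinskerReduction
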